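import Pool.Agent.Q86.TO9
import Pool.Agent.TH188.WP.RatF

/-!
MP_b525bf_ag: resolution of singularities, in all dimensions, of the quotients of products
`S_1 × ... × S_n × 𝔸^m`, where the `S_i` are affine surfaces over a perfect field of characteristic
`p`, by group schemes of order `p` over `S_1 × ... × S_n` which act on the fibres by translations
whose components are products of functions on the factors; in particular of the quotients
`(X_1 × ... × X_n) / G` by the diagonal action of a group scheme `G` of order `p`, where
`X_i = S_i × 𝔸^(m_i)` and `G` acts on `X_i` by translations along any family of vectors over `S_i`.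
-/

set_option autoImplicit false

open AlgebraicGeometry CategoryTheory MvPolynomial TensorProduct Pool.Agent.W558

universe u

namespace Pool.Agent.Results.MP_b525bf_ag.DiagonalTranslations

section defs

variable {B : Type u} [CommRing B] {r m : ℕ}

/-- The translation `y ↦ y + T v` in the direction of the vector `v`: the homomorphism
`B[y_1, ..., y_m] → B[y_1, ..., y_m][T]` which maps `y_j` to `y_j + v_j T`. -/
noncomputable def translate (v : Fin m → B) :
    MvPolynomial (Fin m) B →ₐ[B] Polynomial (MvPolynomial (Fin m) B) :=
  aeval fun j => Polynomial.C (X j) + Polynomial.X * Polynomial.C (C (v j))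

/-- The polynomial `f` is invariant under the group scheme `G_c = {t : t ^ p = c t}`, which acts by
`(t, y) ↦ y + t v`: `f (y + T v) = f (y)` in `B[y][T] / (T ^ p - c T)`. -/
def IsInvariant (p : ℕ) (c : B) (v : Fin m → B) (f : MvPolynomial (Fin m) B) : Prop :=
  Polynomial.X ^ p - Polynomial.C (C c) * Polynomial.X ∣ translate v f - Polynomial.C f

/-- The ring of invariants of the group schemes `G_(c l)` acting by `(t, y) ↦ y + t (v l)`. -/
noncomputable def invariants (p : ℕ) (c : Fin r → B) (v : Fin r → Fin m → B) :
    Subalgebra B (MvPolynomial (Fin m) B) where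
  carrier := {f | ∀ l, IsInvariant p (c l) (v l) f}
  mul_mem' := fun hf hg l => (Pool.Agent.Q86.TO.inv p (c l) (v l)).mul_mem (hf l) (hg l)
  add_mem' := fun hf hg l => (Pool.Agent.Q86.TO.inv p (c l) (v l)).add_mem (hf l) (hg l)
  algebraMap_mem' := fun b l => (Pool.Agent.Q86.TO.inv p (c l) (v l)).algebraMap_mem b

/-- The quotient of `Spec B × 𝔸^m` by the group schemes `G_(c l)`: the spectrum of the ring of
invariants. -/
noncomputable def quotient (p : ℕ) (c : Fin r → B) (v : Fin r → Fin m → B) : Scheme.{u} :=
  Spec (CommRingCat.of (invariants p c v))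

/-- The structure morphism of the quotient. -/
noncomputable def structureMorphism (k : Type u) [Field k] [Algebra k B] (p : ℕ) (c : Fin r → B)
    (v : Fin r → Fin m → B) : quotient p c v ⟶ Spec (CommRingCat.of k) :=
  Spec.map (CommRingCat.ofHom (algebraMap k (invariants p c v)))

end defs

/-- The field `E` is the function field of a smooth projective surface over `k`, or a rational
function field in two variables, or such that any finite family of nonzero elements of `E` has its
zeros and poles in a simple normal crossings divisor on some smooth projective variety with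
function field `E`. -/
def GoodField (k E : Type u) [Field k] [Field E] [Algebra k E] : Prop :=
  (Algebra.trdeg k E = 2 ∧ HasModel k E) ∨
    Nonempty (E ≃ₐ[k] FractionRing (MvPolynomial (Fin 2) k)) ∨ HasLogModels k E

lemma GoodField.hasLM {k E : Type u} [Field k] [PerfectField k] [Field E] [Algebra k E]
    (h : GoodField k E) : Pool.Agent.W418.LCI.HasLM k E := by
  rcases h with h | ⟨⟨ε⟩⟩ | h
  · exact Pool.Agent.W418.LCI.hasLM_of_surface k E h.1 h.2
  · exact Pool.Agent.W418.LCI.hasLM_of_surface k E (ε.trdeg_eq.trans (trdeg_RF2 k))
      (Pool.Agent.TH188.WP.hasModel_of_equiv ε.symm (hasModel_RF2 k))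
  · exact Pool.Agent.W418.LCI.hasLM_of_models k E h

section product

variable {k : Type u} [Field k] {n : ℕ} {R : Fin n → Type u} [∀ i, CommRing (R i)]
  [∀ i, Algebra k (R i)]

/-- The function `a` on the factor `i`, as a function on the product. -/
noncomputable def fromFactor (i : Fin n) (a : R i) : ⨂[k] i, R i :=
  PiTensorProduct.singleAlgHom (R := k) (A := R) i a

/-- The product `∏ i, s i` of functions `s i` on the factors. -/
noncomputable def productOf (s : ∀ i, R i) : ⨂[k] i, R i := PiTensorProduct.tprod k s

variable {m r : ℕ}

/-- The components `v l j = e l j * μ j` of the vectors. -/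
noncomputable def vectors (i₀ : Fin n) (e : Fin r → Fin m → R i₀) (μ : Fin m → ∀ i, R i)
    (l : Fin r) (j : Fin m) : ⨂[k] i, R i :=
  fromFactor i₀ (e l j) * productOf (μ j)

end product

/-- Let `k` be a perfect field of characteristic `p` and `R 1, ..., R n` finitely generated
`k`-algebras without zero divisors, whose fraction fields are rational of transcendence degree two or
function fields of smooth projective surfaces (or have log smooth models), `S_i = Spec (R i)`, such
that `S = S_1 × ... × S_n` is integral, which is automatic if `k` is algebraically closed. Let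
`c 1, ..., c r` be functions on `S`, which come from the factor `i₀` unless `r = 1`, and
`v l j = e l j * μ j` with functions `e l j` on the factor `i₀` and products
`μ j = ∏ i, μ j i` of functions on the factors. The group scheme `G_(c l) = {t : t ^ p = c l * t}` of
order `p` over `S` acts on `S × 𝔸^m` by `(t, (s, y)) ↦ (s, (y_j + t * v l j (s))_j)`. The quotient
of `S × 𝔸^m` by these `r` group schemes, the spectrum of the ring of invariants, is a variety and has
a resolution of singularities.

In particular, for `r = 1`, `e = 1` and functions `μ j` which depend on only one factor, this is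
the quotient `(X_1 × ... × X_n) / G` by the diagonal action of a group scheme `G` of order `p`
(for instance `ℤ/p`, for `c = 1`, or `α_p`, for `c = 0`), where `X_i = S_i × 𝔸^(m_i)` and `G` acts on
`X_i` by the translations `(s, y) ↦ (s, y + t v_i(s))`, for arbitrary vectors `v_i` of functions on
the surfaces `S_i`, with arbitrary zeros. -/
theorem result (p : ℕ) [Fact p.Prime] (k : Type u) [Field k] [CharP k p] [PerfectField k]
    (n : ℕ) (R : Fin n → Type u) [∀ i, CommRing (R i)] [∀ i, IsDomain (R i)]
    [∀ i, Algebra k (R i)] [∀ i, Algebra.FiniteType k (R i)]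
    (hdom : IsAlgClosed k ∨ IsDomain (⨂[k] i, R i))
    (hR : ∀ i, GoodField k (FractionRing (R i))) (m r : ℕ) (i₀ : Fin n)
    (c : Fin r → ⨂[k] i, R i) (hc : r = 1 ∨ ∀ l, ∃ a : R i₀, c l = fromFactor i₀ a)
    (e : Fin r → Fin m → R i₀) (μ : Fin m → ∀ i, R i) :
    IsResolvableVariety (structureMorphism k p c (vectors i₀ e μ)) := by
  classical
  have hdomB : IsDomain (⨂[k] i, R i) := by
    rcases hdom with h | h
    · exact Pool.Agent.H920R2.isDomain_pi n R
    · exact h
  refine Pool.Agent.Q86.TO.main_pi (p := p) (fun i => (hR i).hasLM)
    (List.ofFn (fun l => (c l, vectors i₀ e μ l))) ?_ _ ?_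
  · rcases hc with rfl | hc
    · left
      refine ⟨c 0, _, rfl, fun j => ?_⟩
      refine ⟨Pi.mulSingle i₀ (e 0 j) * μ j, ?_⟩
      rw [Pool.Agent.Q86.TO.tp_eq]
      unfold vectors
      have h1 := map_mul (PiTensorProduct.tprodMonoidHom k (A := R))
        (Pi.mulSingle i₀ (e 0 j)) (μ j)
      exact h1.symm
    · right
      refine ⟨i₀, μ, fun it hit => ?_⟩
      obtain ⟨l, rfl⟩ := (List.mem_ofFn' _ _).1 hit
      refine ⟨hc l, fun j => ⟨e l j, ?_⟩⟩
      rw [Pool.Agent.Q86.TO.tp_eq]
      rfl
  · intro f
    rw [List.forall_mem_ofFn_iff]
    exact Iff.rfl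

end Pool.Agent.Results.MP_b525bf_ag.DiagonalTranslations
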