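import Pool.Agent.Q299.JN.Reached

/-!
MP_b525bf_ag: resolution of singularities in positive characteristic and arbitrary dimension, along
all valuations in a class which is closed under joins (tensor products), under composition and
under towers without defect.

Let `k` be an algebraically closed field of characteristic `p > 0`, let `X` be a variety over `k`,
and let `V` be a valuation ring of the function field `K` of `X` over `k` which is centred on `X`.
Let `IsReachedJ k` be the smallest class of valuation rings `V` of fields `K` over `k` which
contains

* the trivial valuations, the discrete valuations of arbitrary finite rank (more generally the
  finite composites of discrete and divergent valuations), the divergent valuations, and the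
  valuations which are log uniformizable on all `k`-algebras of finite type in `V` with fraction
  field `K` (by Cossart and Piltant all valuations if the transcendence degree of `K` is at most
  `3`);

and which is closed under

* joins: `K` is the compositum of linearly disjoint function fields `E₁` and `E₂` over `k` (for
  example the function field of a product of varieties), `V` induces on `E₁ ⊗ E₂` the tensor
  product norm of its restrictions to `E₁` and `E₂`, and the class contains these restrictions;
* composition: `V` is the composite of `V₁` and a valuation ring `W` of the residue field of `V₁`,
  the class contains `V₁` and `W ∩ F` for every field `F` in the residue field of `V₁` which is
  finitely generated over `k`;
* towers without defect: `K` is reached from a subfield `E`, finitely generated over `k`, by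
  finitely many steps of the following kinds, and the class contains `V ∩ E`: `L ⊂ L(t)` with `t`
  transcendental, such that the value of every polynomial in `t` is determined by a defectless key
  polynomial; finite extensions `L ⊂ L'` without defect.

Let `V` be in the class and let `Spec A` be an affine neighbourhood of the centre of `V` on `X`.
Then for every closed subset `D` and every blowing-up `X₀` of `Spec A` there is a blowing-up `X'` of
`Spec A` which factors through `X₀`, is nonsingular at the centre of `V`, and such that the preimage
of `D` and of the centre of the blowing-up is a divisor with simple normal crossings there.

The main point is the closedness under joins. For example, let `E₁, ..., E_m` be function fields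
of threefolds with arbitrary valuations `v₁, ..., v_m` (of any kind, for example with infinitely
many free and satellite points and with defect over all subfields), with values in a common ordered
group. Then the tensor product norm of the `v i` on the function field of the product is in the
class (by Cossart and Piltant), and so are its extensions to towers without defect over this field
and the composites of such valuations. (The starting results `TensorValuations` of MP_5b7a2c_ag
treat joins of valuations of surfaces.)

The proof. (1) The product of two regular local rings `P₁`, `P₂` of models of `E₁`, `E₂`, localized
at the centre of `V`, is regular, and the union of parts of regular systems of parameters of `P₁`
and `P₂` is a part of a regular system of parameters. This is proved by the Jacobian criterion: `P i`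
is the quotient of the localization of a polynomial ring by a part `f i` of a regular system of
parameters, and over perfect fields such sequences are characterized by minors of the Jacobian
matrix; the kernel of the join is generated by the kernels because of the linear disjointness.
(2) If the values of the parameters of `P₁` and of `P₂` are comparable by further toroidal
blowings-up, each `z ∈ E₁ ⊗ E₂` is a sum `∑ a i * b i` with a dominating term, so it is a monomial
times a unit. (3) The classes are handled by an induction in which the assertion is strengthened to
`strong uniformization of all models'.
-/

set_option autoImplicit false

universe u

namespace Pool.Agent.Results.MP_b525bf_ag.JoinsOfValuations

open Pool.Agent.Q299.TD (IsModel)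
open Pool.Agent.Q299.JN
open Pool.Agent.Results.MP_5b7a2c_ag.KeyPolynomialTowers (IsLogUniformizable)
open Pool.Agent.Results.MP_5b7a2c_ag.DiscreteValuations (adjoined)

/-- Let `k` be an algebraically closed field of characteristic `p > 0`, let `K` be a field over `k`,
and let `V` be a valuation ring of `K` in the class `IsReachedJ k`, that is, `V` is obtained from
trivial, discrete, divergent, or log uniformizable valuations by joins, by composition and by
towers of transcendental steps without limit key polynomials and finite extensions without defect.
Let `A = k[G] ⊆ V` be a `k`-algebra of finite type with fraction field `K`, that is, an affine open
subset `Spec A` of a variety with function field `K` which contains the centre of `V`. Then for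
every closed subset `V(D)` of `Spec A` and for every blowing-up `X₀` of `Spec A` there is a
blowing-up of `Spec A` which factors through `X₀` and is a log resolution of singularities of
`(Spec A, V(D))` along `V`. -/
theorem result {k : Type u} [Field k] [IsAlgClosed k] (p : ℕ) [Fact p.Prime] [CharP k p]
    {K : Type u} [Field K] [Algebra k K] (V : ValuationSubring K)
    (hV : IsReachedJ k (algebraMap k K) V) (G : Set K) (hG : G.Finite)
    (hA : IsModel V (adjoined (algebraMap k K) G)) :
    IsLogUniformizable V (adjoined (algebraMap k K) G) :=
  logUnif_of_isReachedJ (algebraMap k K) V hV G hG hA

end Pool.Agent.Results.MP_b525bf_ag.JoinsOfValuations
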