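import Pool.Agent.Q86.TO13
import Pool.Agent.TH188.WP.RatF

/-!
MP_b525bf_ag: resolution of singularities, in all dimensions, of the quotients of `S × 𝔸^m`, or of
the closure `X ⊆ S × 𝔸^q` of any family of linear subspaces of `𝔸^q`, where `S` is an affine surface
over a perfect field of characteristic `p`, by group schemes of order `p` over `S` which act linearly
on the fibres by `y ↦ y + t N(s) y` with a matrix `N` of functions on `S` such that `N ^ 2 = 0`. For
`p = 2` these are all linear actions of these group schemes, for instance all families of linear
involutions.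
-/

set_option autoImplicit false

open AlgebraicGeometry CategoryTheory MvPolynomial Pool.Agent.W558

universe u

namespace Pool.Agent.Results.MP_b525bf_ag.SquareZeroActions

section defs

variable {q m : ℕ}

/-- The linear form with the coefficients `v i`. -/
noncomputable def form {E : Type u} [CommRing E] (v : Fin m → E) : MvPolynomial (Fin m) E :=
  ∑ i, C (v i) * X i

/-- The action `u ↦ u + T N u`: the homomorphism `E[u_1, ..., u_m] → E[u_1, ..., u_m][T]` which maps
`u_i` to `u_i + (∑ l, N_il u_l) T`. -/
noncomputable def act {E : Type u} [CommRing E] (N : Matrix (Fin m) (Fin m) E) :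
    MvPolynomial (Fin m) E →ₐ[E] Polynomial (MvPolynomial (Fin m) E) :=
  aeval fun i => Polynomial.C (X i) + Polynomial.X * Polynomial.C (form (N i))

/-- The polynomial `f` is invariant under the group scheme `G_c = {t : t ^ p = c t}`, which acts by
`(t, u) ↦ u + t N u`: `f (u + T N u) = f (u)` in `E[u][T] / (T ^ p - c T)`. -/
def IsInvariant {E : Type u} [CommRing E] (p : ℕ) (c : E) (N : Matrix (Fin m) (Fin m) E)
    (f : MvPolynomial (Fin m) E) : Prop :=
  Polynomial.X ^ p - Polynomial.C (C c) * Polynomial.X ∣ act N f - Polynomial.C f

/-- The coordinate ring of the closure `X` in `S × 𝔸^q`, `S = Spec R`, of the family of the linear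
subspaces `{α(s) u}` over the generic point of `S`: the image of `R[y_1, ..., y_q]` in the ring of
functions `E[u_1, ..., u_m]` of the linear subspace over the fraction field `E` of `R`. (If `α` is the
unit matrix this is `R[u_1, ..., u_m]`.) -/
noncomputable def coordinateRing (R : Type u) [CommRing R]
    (α : Matrix (Fin q) (Fin m) (FractionRing R)) :
    Subalgebra R (MvPolynomial (Fin m) (FractionRing R)) :=
  Algebra.adjoin R (Set.range fun j => form (α j))

/-- The ring of the functions on `X` which are invariant under the group scheme `G_c`. -/
noncomputable def invariants {R : Type u} [CommRing R] (p : ℕ)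
    (α : Matrix (Fin q) (Fin m) (FractionRing R)) (c : R)
    (N : Matrix (Fin m) (Fin m) (FractionRing R)) :
    Subalgebra R (MvPolynomial (Fin m) (FractionRing R)) where
  carrier := {f | f ∈ coordinateRing R α ∧ IsInvariant p (algebraMap R (FractionRing R) c) N f}
  mul_mem' := by
    intro f g hf hg
    refine ⟨Subalgebra.mul_mem _ hf.1 hg.1, ?_⟩
    have e : act N (f * g) - Polynomial.C (f * g) =
        (act N f - Polynomial.C f) * act N g + Polynomial.C f * (act N g - Polynomial.C g) := by
      rw [map_mul, Polynomial.C_mul]; ring
    unfold IsInvariant
    rw [e]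
    exact dvd_add (dvd_mul_of_dvd_left hf.2 _) (dvd_mul_of_dvd_right hg.2 _)
  add_mem' := by
    intro f g hf hg
    refine ⟨Subalgebra.add_mem _ hf.1 hg.1, ?_⟩
    have e : act N (f + g) - Polynomial.C (f + g) =
        (act N f - Polynomial.C f) + (act N g - Polynomial.C g) := by
      rw [map_add, Polynomial.C_add]; ring
    unfold IsInvariant
    rw [e]
    exact dvd_add hf.2 hg.2
  algebraMap_mem' := by
    intro a
    refine ⟨Subalgebra.algebraMap_mem _ a, ?_⟩
    have e : act N (C (algebraMap R (FractionRing R) a)) =
        Polynomial.C (C (algebraMap R (FractionRing R) a)) := (act N).commutes _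
    have e2 : algebraMap R (MvPolynomial (Fin m) (FractionRing R)) a =
        C (algebraMap R (FractionRing R) a) := rfl
    unfold IsInvariant
    rw [e2, e, sub_self]
    exact dvd_zero _

end defs

/-- The field `E` is the function field of a smooth projective surface over `k`, or a rational
function field in two variables, or such that any finite family of nonzero elements of `E` has its
zeros and poles in a simple normal crossings divisor on some smooth projective variety with
function field `E`. -/
def GoodField (k E : Type u) [Field k] [Field E] [Algebra k E] : Prop :=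
  (Algebra.trdeg k E = 2 ∧ HasModel k E) ∨
    Nonempty (E ≃ₐ[k] FractionRing (MvPolynomial (Fin 2) k)) ∨ HasLogModels k E

lemma GoodField.hasLM {k E : Type u} [Field k] [PerfectField k] [Field E] [Algebra k E]
    (h : GoodField k E) : Pool.Agent.W418.LCI.HasLM k E := by
  rcases h with h | ⟨⟨ε⟩⟩ | h
  · exact Pool.Agent.W418.LCI.hasLM_of_surface k E h.1 h.2
  · exact Pool.Agent.W418.LCI.hasLM_of_surface k E (ε.trdeg_eq.trans (trdeg_RF2 k))
      (Pool.Agent.TH188.WP.hasModel_of_equiv ε.symm (hasModel_RF2 k))
  · exact Pool.Agent.W418.LCI.hasLM_of_models k E h

/-- Let `k` be a perfect field of characteristic `p` and `R` a finitely generated `k`-algebra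
without zero divisors, whose fraction field `E` is rational of transcendence degree two or the
function field of a smooth projective surface (or has log smooth models), `S = Spec R`. Let `α` be a
`q × m`-matrix with entries in `E` and linearly independent columns, and `X ⊆ S × 𝔸^q` the closure of
the family of the linear subspaces `{α(s) u}` of dimension `m` of `𝔸^q`. Let `M` be a
`q × q`-matrix with entries in `R` such that `y ↦ M y` maps the linear subspaces to themselves,
`M α = α N`, and such that `N ^ 2 = 0`. Let `c` be an element of `R`. The group scheme
`G_c = {t : t ^ p = c * t}` of order `p` over `S` acts on `X` by `(t, (s, y)) ↦ (s, y + t * M(s) y)`. The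
quotient `X / G_c`, the spectrum of the ring of invariants, is a variety and has a resolution of
singularities.

In particular (`α = 1`) this holds for the quotient of `S × 𝔸^m` by the action
`(t, (s, y)) ↦ (s, y + t * N(s) y)` for every matrix `N` with entries in `R` and `N ^ 2 = 0`, whose
rank may drop in an arbitrary way; for `p = 2` these are all linear actions of `G_c`, for example
(`c = 1`) all families of linear involutions of `𝔸^m` parametrized by a surface. -/
theorem result (p : ℕ) [Fact p.Prime] (k : Type u) [Field k] [CharP k p] [PerfectField k]
    (R : Type u) [CommRing R] [IsDomain R] [Algebra k R] [Algebra.FiniteType k R]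
    (hR : GoodField k (FractionRing R)) (q m : ℕ) (α : Matrix (Fin q) (Fin m) (FractionRing R))
    (hα : ∀ u : Fin m → FractionRing R, α.mulVec u = 0 → u = 0)
    (N : Matrix (Fin m) (Fin m) (FractionRing R)) (hN : N * N = 0)
    (M : Matrix (Fin q) (Fin q) R) (hM : M.map (algebraMap R (FractionRing R)) * α = α * N)
    (c : R) :
    IsResolvableVariety (X := Spec (CommRingCat.of (invariants p α c N)))
      (Spec.map (CommRingCat.ofHom (algebraMap k (invariants p α c N)))) := by
  refine Pool.Agent.Q86.TO.main_sq (p := p) hR.hasLM α
    (Pool.Agent.Q86.TO.span_of_injective α fun u hu => hα u (funext hu)) N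
    (fun i l => ?_) M (fun j i => ?_) c _ (fun f => Iff.rfl)
  · have h1 := congrFun (congrFun hN i) l
    rw [Matrix.mul_apply] at h1
    exact h1
  · have h1 := congrFun (congrFun hM j) i
    rw [Matrix.mul_apply, Matrix.mul_apply] at h1
    exact h1.symm

end Pool.Agent.Results.MP_b525bf_ag.SquareZeroActions
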